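import Pool.Agent.V11237.LP.GB

set_option autoImplicit false

/-!
# Prime plus almost prime inside primorial intervals

For every large `k` and every even `m` with `#(k) + 1 ≤ m ≤ #(k+1) + 1`, and every interval `(u, u + Y]`
inside `[#(k-1), #(k) + 1]` with `u + Y + #(k-1) < m` and `Y ≥ δ #(k)`: the number of the primes
`p ∈ (u, u + Y]` for which `m - p` has no prime factor `≤ m ^ (1 / r)`, and the Poisson law of the next
almost prime pairs.
-/

namespace Pool.Agent.Results.MP_484fb8_nt.LawInPrimorialWindows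

open Finset
open Pool.Agent.V11237.LP.GB

/-- The product of the first `k` primes. -/
noncomputable def prl (k : ℕ) : ℕ := ∏ i ∈ range k, Nat.nth Nat.Prime i

lemma prl_succ (k : ℕ) : prl (k + 1) = prl k * Nat.nth Nat.Prime k := by
  unfold prl
  rw [Finset.prod_range_succ]

lemma prl_pos (k : ℕ) : 1 ≤ prl k := by
  unfold prl
  exact Nat.one_le_iff_ne_zero.2 (Finset.prod_ne_zero_iff.2 fun i _ => (Nat.prime_nth_prime i).ne_zero)

/-- Euclid: the next prime is at most `#(k) + 1`. -/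
lemma nth_le (k : ℕ) : Nat.nth Nat.Prime k ≤ prl k + 1 := by
  obtain ⟨q, hq, hqd⟩ := Nat.exists_prime_and_dvd (n := prl k + 1) (by have := prl_pos k; omega)
  have hle : q ≤ prl k + 1 := Nat.le_of_dvd (by omega) hqd
  refine le_trans ?_ hle
  by_contra hcon
  rw [not_le] at hcon
  obtain ⟨i, hi⟩ : ∃ i, Nat.nth Nat.Prime i = q :=
    ⟨Nat.count Nat.Prime q, Nat.nth_count hq⟩
  rw [← hi] at hcon
  have hik : i < k := (Nat.nth_lt_nth Nat.infinite_setOfPred_prime).1 hcon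
  have h1 : q ∣ prl k := by
    rw [← hi]
    exact Finset.dvd_prod_of_mem _ (mem_range.2 hik)
  have h2 := (Nat.dvd_add_right h1).1 hqd
  exact hq.one_lt.ne' (Nat.dvd_one.1 h2)

lemma pow_le (k : ℕ) : 2 ^ k ≤ prl k := by
  unfold prl
  rw [← Finset.card_range k, ← Finset.prod_const]
  simp only [card_range]
  exact Finset.prod_le_prod (fun _ _ => by norm_num) (fun i _ => (Nat.prime_nth_prime i).two_le)

/-- **Prime plus almost prime in primorial intervals.** -/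
theorem result (δ : ℝ) (hδ : 0 < δ) (hδ1 : δ ≤ 1) (x₀ ε : ℝ) (hε : 0 < ε) (hε1 : ε ≤ 1) :
    ∃ r₀ : ℕ, 2 ≤ r₀ ∧ ∀ r : ℕ, r₀ ≤ r → ∃ k₀ : ℕ, ∀ k : ℕ, k₀ ≤ k → ∀ m : ℕ, Even m →
      prl k + 1 ≤ m → m ≤ prl (k + 1) + 1 →
      0 < V m r ∧
      ∀ u Y : ℕ, prl (k - 1) ≤ u → u + Y ≤ prl k + 1 → u + Y + prl (k - 1) < m →
        δ * (prl k + 1) ≤ Y →
      (∀ p ∈ P m r u Y, p.Prime ∧ prl (k - 1) + 1 ≤ p ∧ p ≤ prl k + 1 ∧ prl (k - 1) + 1 ≤ m - p ∧
        m - p ≤ prl (k + 1) + 1 ∧ (m - p).primeFactorsList.length ≤ r) ∧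
      |((P m r u Y).card : ℝ) * Real.log (prl k + 1) - Y * (V m r / U m r)| ≤
        ε * (Y * (V m r / U m r)) ∧
      ∀ T : ℕ, T * V m r ≤ x₀ → ∀ S : Finset ℕ,
        |(((P m r u Y).filter (fun p => Next m r T p ∈ S)).card : ℝ) -
          (P m r u Y).card * ∑ j ∈ S, Real.exp (-(T * V m r)) * (T * V m r) ^ j / j.factorial| ≤
          ε * (P m r u Y).card := by
  classical
  obtain ⟨r0, hr0, h0⟩ := law (1 / 2) δ (by norm_num) hδ hδ1 x₀ ε hε hε1
  refine ⟨r0, hr0, ?_⟩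
  intro r hr
  obtain ⟨n0, hn0⟩ := h0 r hr
  refine ⟨n0, ?_⟩
  intro k hk m hm hm1 hm2
  have hmn0 : n0 ≤ m := by
    have h1 : k < 2 ^ k := Nat.lt_two_pow_self
    have h2 := pow_le k
    omega
  obtain ⟨g1, g2, g3⟩ := hn0 m hmn0 hm
  refine ⟨g2, ?_⟩
  intro u Y hu huY hum hY
  have hcast : ((prl k + 1 : ℕ) : ℝ) = prl k + 1 := by push_cast; ring
  have hsq : m ≤ (prl k + 1) ^ 2 := by
    have h1 := nth_le k
    have h2 : prl (k + 1) ≤ prl k * (prl k + 1) := by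
      rw [prl_succ]
      exact Nat.mul_le_mul_left _ h1
    nlinarith
  obtain ⟨g4, g5⟩ := g3 (prl k + 1) (by
      rw [← Real.sqrt_eq_rpow]
      apply Real.sqrt_le_iff.2
      refine ⟨Nat.cast_nonneg _, ?_⟩
      exact_mod_cast hsq) u Y (by rw [hcast]; exact hY) huY
  rw [hcast] at g4
  refine ⟨?_, g4, g5⟩
  intro p hp
  unfold P at hp
  rw [mem_filter, mem_Ioc] at hp
  obtain ⟨⟨h1, h2⟩, h3, h4⟩ := hp
  exact ⟨h3, by omega, by omega, by omega, by omega, g1 p (by omega) h4⟩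

end Pool.Agent.Results.MP_484fb8_nt.LawInPrimorialWindows
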