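import Pool.Agent.V11249.NP.Gold

/-!
# Arithmetic progressions in the set of the Goldbach representations within primorial intervals

For all `j`, all even `M` in the primorial interval of index `j + 1` and all windows `(A, A + N]` inside the primorial
interval of index `j` (and below `M - #(j - 1)`), consider the `p` in the window with `p ∈ P j` and
`M - p ∈ P j ∪ P (j + 1)`. The number of these representations in the window
has the expected order of magnitude `N V` if and only if the number of the `k`-term arithmetic progressions with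
differences up to `D` formed by them has the expected order of magnitude `N D V ^ k`, for all `D` between a power of
`log N` and `N`; the constants depend only on `k`. The same holds for all sets of integers `n` such that `n` and
`M - n` have no prime factor `≤ N ^ κ` (Szemerédi's theorem relative to these sets, and its converse).
-/

set_option autoImplicit false

open Finset

namespace Pool.Agent.Results.MP_484fb8_nt.ProgressionsOfRepresentations

/-- the primorial `#(n)`, the product of the first `n` primes -/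
noncomputable def primo (n : ℕ) : ℕ := ∏ i ∈ range n, Nat.nth Nat.Prime i

/-- the primes in the `n`-primorial interval `[#(n - 1) + 1, #(n) + 1]` -/
noncomputable def P (n : ℕ) : Finset ℕ := (Icc (primo (n - 1) + 1) (primo n + 1)).filter Nat.Prime

/-- `M` is even and lies in the primorial interval of index `j + 1`; the window `(A, A + N]` lies in the primorial
interval of index `j` and below `M - #(j - 1)` -/
def Window (j M A N : ℕ) : Prop :=
  Even M ∧ primo j + 1 ≤ M ∧ M ≤ primo (j + 1) + 1 ∧ primo (j - 1) ≤ A ∧ A + N ≤ primo j + 1 ∧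
    A + N + primo (j - 1) + 1 ≤ M

/-- the `p` in `(A, A + N]` with `p ∈ P j` and `M - p ∈ P j ∪ P (j + 1)` -/
noncomputable def G (j M A N : ℕ) : Finset ℕ :=
  (Ioc A (A + N)).filter (fun p => p ∈ P j ∧ M - p ∈ P j ∪ P (j + 1))

/-- the sieve product over the primes `p ≤ N ^ κ`: the factor is `1 - 1 / p` for the primes `p` dividing `M` and
`1 - 2 / p` for the others -/
noncomputable def V (M : ℕ) (κ : ℝ) (N : ℕ) : ℝ :=
  (∏ p ∈ (Icc 1 ⌊(N : ℝ) ^ κ⌋₊).filter (fun p => p.Prime ∧ p ∣ M), (1 - 1 / (p : ℝ))) *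
    ∏ p ∈ (Icc 1 ⌊(N : ℝ) ^ κ⌋₊).filter (fun p => p.Prime ∧ ¬ p ∣ M), (1 - 2 / (p : ℝ))

/-- neither `n` nor `M - n` has a prime factor `≤ N ^ κ` -/
def Rough (M : ℕ) (κ : ℝ) (N n : ℕ) : Prop :=
  ∀ p : ℕ, p.Prime → p ∣ n * (M - n) → (N : ℝ) ^ κ < p

open Classical in
/-- The number of the progressions `n, n + d, …, n + (k - 1) d` in `S` with `1 ≤ d ≤ D`. -/
noncomputable def AP (k D : ℕ) (S : Finset ℕ) : ℕ :=
  ((S ×ˢ Icc 1 D).filter (fun q => ∀ j < k, q.1 + j * q.2 ∈ S)).card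

theorem eqG (j M A N : ℕ) (h : Window j M A N) :
    G j M A N = (Ioc A (A + N)).filter (fun p => p.Prime ∧ (M - p).Prime) := by
  obtain ⟨h0, h1, h2, h3, h4, h5⟩ := h
  unfold G
  apply filter_congr
  intro p hp
  rw [mem_Ioc] at hp
  unfold P
  rw [mem_union, mem_filter, mem_filter, mem_filter, mem_Icc, mem_Icc, mem_Icc, Nat.add_sub_cancel]
  constructor
  · rintro ⟨⟨-, a⟩, ⟨-, b⟩ | ⟨-, b⟩⟩
    · exact ⟨a, b⟩
    · exact ⟨a, b⟩
  · rintro ⟨a, b⟩
    refine ⟨⟨by omega, a⟩, ?_⟩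
    by_cases h6 : M - p ≤ primo j + 1
    · exact Or.inl ⟨by omega, b⟩
    · exact Or.inr ⟨by omega, b⟩

/-- For every `k ≥ 1`, with constants which do not depend on `j`, the even number `M` and the window:
(1) for `κ > 0` a set `S` of integers `n` of the window with `n` and `M - n` free of prime factors `≤ N ^ κ`
contains at most `C N D V ^ k` progressions of length `k` with differences at most `D`;
(2) it contains at least `c₀ N D V ^ k` of them if it has at least `δ N V` elements, and it has at least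
`c₀ N V` elements if it contains at least `δ N D V ^ k` of them, for all `D` between `log ^ B N` and `N`;
(3), (4) the same for the set `G` (with `κ = 1/4` in `V`). -/
theorem result (k : ℕ) (hk : 1 ≤ k) :
    (∀ κ : ℝ, 0 < κ → ∃ C : ℝ, 0 < C ∧ ∃ B N₀ : ℕ, ∀ j M N A D : ℕ, Window j M A N →
      N₀ ≤ N → Real.log N ^ B ≤ D → ∀ S : Finset ℕ, S ⊆ Ioc A (A + N) → (∀ n ∈ S, Rough M κ N n) →
        (AP k D S : ℝ) ≤ C * (N * D * V M κ N ^ k)) ∧
    (∀ κ δ : ℝ, 0 < κ → 0 < δ → ∃ c₀ : ℝ, 0 < c₀ ∧ ∃ B N₀ : ℕ, ∀ j M N A D : ℕ, Window j M A N →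
      N₀ ≤ N → Real.log N ^ B ≤ D → D ≤ N → ∀ S : Finset ℕ, S ⊆ Ioc A (A + N) →
        (∀ n ∈ S, Rough M κ N n) →
        (δ * (N * V M κ N) ≤ S.card → c₀ * (N * D * V M κ N ^ k) ≤ AP k D S) ∧
        (δ * (N * D * V M κ N ^ k) ≤ AP k D S → c₀ * (N * V M κ N) ≤ S.card)) ∧
    (∃ C : ℝ, 0 < C ∧ ∃ B N₀ : ℕ, ∀ j M N A D : ℕ, Window j M A N → N₀ ≤ N → Real.log N ^ B ≤ D →
      (AP k D (G j M A N) : ℝ) ≤ C * (N * D * V M (1 / 4) N ^ k)) ∧
    (∀ δ : ℝ, 0 < δ → ∃ c₀ : ℝ, 0 < c₀ ∧ ∃ B N₀ : ℕ, ∀ j M N A D : ℕ, Window j M A N →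
      N₀ ≤ N → Real.log N ^ B ≤ D → D ≤ N →
      (δ * (N * V M (1 / 4) N) ≤ (G j M A N).card →
        c₀ * (N * D * V M (1 / 4) N ^ k) ≤ AP k D (G j M A N)) ∧
      (δ * (N * D * V M (1 / 4) N ^ k) ≤ AP k D (G j M A N) →
        c₀ * (N * V M (1 / 4) N) ≤ (G j M A N).card)) := by
  obtain ⟨a1, a2, a3, a4⟩ := Pool.Agent.V11249.NP.Gold.spec (Θ := ℕ × ℕ) (fun q => q.2)
    (fun q A N => Window q.1 q.2 A N) (fun q A N => G q.1 q.2 A N) V Rough
    (fun q A N h => ⟨h.1, by have := h.2.2.2.2.2; omega⟩) (fun q A N h _ => eqG q.1 q.2 A N h)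
    (fun M κ N => Pool.Agent.V11249.NP.Gold.V_two M κ N) (fun M κ N n h => h) k hk
  refine ⟨?_, ?_, ?_, ?_⟩
  · intro κ hκ
    obtain ⟨C, hC, B, N₀, h⟩ := a1 κ hκ
    exact ⟨C, hC, B, N₀, fun j M => h (j, M)⟩
  · intro κ δ hκ hδ
    obtain ⟨C, hC, B, N₀, h⟩ := a2 κ δ hκ hδ
    exact ⟨C, hC, B, N₀, fun j M => h (j, M)⟩
  · obtain ⟨C, hC, B, N₀, h⟩ := a3
    exact ⟨C, hC, B, N₀, fun j M => h (j, M)⟩
  · intro δ hδ
    obtain ⟨C, hC, B, N₀, h⟩ := a4 δ hδ
    exact ⟨C, hC, B, N₀, fun j M => h (j, M)⟩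

end Pool.Agent.Results.MP_484fb8_nt.ProgressionsOfRepresentations
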