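import Pool.Agent.W93.PG7
import Pool.Agent.V11113.MR.GoldWin
import Pool.Agent.V11113.MR.BilFam

/-!
# Goldbach representations in primorial intervals for the members of thin families

The families are the families of the numbers `r (c + v i)`, where `v i` runs through the least residues modulo `m` (an arbitrary
integer) of residues with exponential sums `O(#s m ^ (-δ))`, with an arbitrarily small `δ > 0` (`Small`). Examples (part (2)):
the values `x · Q y + f(x) + g(y)` modulo a prime `p` at the pairs of vectors of two arbitrary sets with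
`#A #A' ≥ p ^ (d + 2 δ)`; for `d = 1` this contains the products of the elements of two arbitrary sets with
`#A #A' ≥ p ^ (1 + 2 δ)`. Nothing else is assumed about the families; they may have as few as about `m ^ (2 δ)` different
members.

From the starting files: laws of random integers and Goldbach pairs in windows for them (`Pool.Agent.W93`,
`Pool.Agent.TH872`), with the reduction of the primorial intervals to windows. New: the families of residues,
`Pool.Agent.V11113.MR`.
-/

set_option autoImplicit false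

namespace Pool.Agent.Results.MP_484fb8_nt.ThinFamilies

open Finset Matrix

/-- The exponential sums over the family `v i ∈ ℤ / m`, `i ∈ s`, at all nonzero frequencies are at most `#s m ^ (-δ)`.
(`ZMod.stdAddChar` is the character `e(x / m)`.) -/
def Small (m : ℕ) [NeZero m] (δ : ℝ) {ι : Type} (s : Finset ι) (v : ι → ZMod m) : Prop :=
  ∀ b : ZMod m, b ≠ 0 → ‖∑ x ∈ s, (ZMod.stdAddChar (b * v x) : ℂ)‖ ≤ s.card * (m : ℝ) ^ (-δ)

/-- families of values of bilinear forms -/
theorem small_bil (p : ℕ) [NeZero p] (hp : p.Prime) (δ : ℝ) (d : ℕ) (A A' : Finset (Fin d → ZMod p))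
    (Q : Matrix (Fin d) (Fin d) (ZMod p)) (hQ : IsUnit Q.det) (h : (p : ℝ) ^ (d + 2 * δ) ≤ A.card * A'.card)
    (f g : (Fin d → ZMod p) → ZMod p) : Small p δ (A ×ˢ A') (fun z => z.1 ⬝ᵥ Q.mulVec z.2 + f z.1 + g z.2) := by
  have : Fact p.Prime := ⟨hp⟩
  exact fun b hb => Pool.Agent.V11113.MR.bil_small δ p d A A' Q hQ f g h b hb

/-- The twin prime constant `C₂ = ∏_{p > 2} (1 - 1 / (p - 1) ^ 2)`: the infimum (the limit) of the
decreasing partial products over the primes `3 ≤ p ≤ z`. -/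
noncomputable def C₂ : ℝ := ⨅ z : ℕ, ∏ p ∈ (Icc 3 z).filter Nat.Prime, (1 - 1 / ((p : ℝ) - 1) ^ 2)

/-- The singular series `2 C₂ ∏_{p ∣ m, p > 2} (p - 1) / (p - 2)`. -/
noncomputable def sing (m : ℕ) : ℝ :=
  2 * C₂ * ∏ p ∈ m.primeFactors.filter (fun p => 2 < p), ((p : ℝ) - 1) / ((p : ℝ) - 2)

/-- `#(n)`: the product of the first `n` primes. -/
noncomputable def P (n : ℕ) : ℕ := ∏ i ∈ range n, Nat.nth Nat.Prime i

/-- The number of primes `p` in the `n`-th primorial interval such that `m - p` is a prime which lies in the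
`n`-th or in the `n + 1`-st primorial interval. -/
noncomputable def R (n m : ℕ) : ℕ :=
  ((Icc (P (n - 1) + 1) (P n + 1)).filter
    (fun p => p.Prime ∧ (m - p).Prime ∧ P (n - 1) + 1 ≤ m - p ∧ m - p ≤ P (n + 1) + 1)).card

/-- If `m` belongs to the `n + 1`-st primorial interval (`n ≥ 1`), then `m = p + q` where `p` is a prime in the
`n`-th primorial interval and `q` is a prime in the `n`-th or in the `n + 1`-st one; moreover, up to a relative
error of at most `ε`, the number of these representations is `sing m * #(n) / log ^ 2 m`. -/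
def Holds (ε : ℝ) (m : ℕ) : Prop :=
  ∀ n : ℕ, 1 ≤ n → P n + 1 ≤ m → m ≤ P (n + 1) + 1 →
    (∃ p q : ℕ, p.Prime ∧ q.Prime ∧ m = p + q ∧ P (n - 1) + 1 ≤ p ∧ p ≤ P n + 1 ∧ P (n - 1) + 1 ≤ q ∧ q ≤ P (n + 1) + 1) ∧
    |(R n m : ℝ) - sing m * P n / Real.log m ^ 2| ≤ ε * (sing m * P n / Real.log m ^ 2)

lemma holds_of (ε : ℝ) (hε : 0 < ε) : ∃ m₀ : ℕ, ∀ m : ℕ, m₀ ≤ m → 2 ∣ m →
    Pool.Agent.W93.PG.WinP (min ε (1 / 2) / 4) 2 m → Holds ε m := by
  obtain ⟨m₀, h0⟩ := Pool.Agent.W93.PG.reps_of_win (min ε (1 / 2)) (lt_min hε (by norm_num))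
    ((min_le_right _ _).trans (by norm_num))
  refine ⟨m₀ + 3, ?_⟩
  intro m hm _ hwin n hn h2 h3
  have h4 := h0 m (by omega) hwin n hn h2 h3
  have hm0 : (3 : ℝ) ≤ m := by exact_mod_cast (by omega : 3 ≤ m)
  have hlog : 0 < Real.log m := Real.log_pos (by linarith)
  have hs := Pool.Agent.W93.GB.one_le_sing m
  have hsg : sing m = Pool.Agent.H560R3.GB.sing m := rfl
  have hP : (0 : ℝ) < P n := by exact_mod_cast Pool.Agent.W93.PG.PR_pos n
  have hmain : 0 < sing m * P n / Real.log m ^ 2 := by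
    rw [hsg]
    positivity
  have hR : R n m = Pool.Agent.W93.PG.reps n m := rfl
  have hPR : Pool.Agent.W93.PG.PR n = P n := rfl
  rw [← hR, hPR, ← hsg] at h4
  have h5 : |(R n m : ℝ) - sing m * P n / Real.log m ^ 2| ≤ ε * (sing m * P n / Real.log m ^ 2) :=
    h4.trans (mul_le_mul_of_nonneg_right (min_le_left _ _) hmain.le)
  have h6 : |(R n m : ℝ) - sing m * P n / Real.log m ^ 2| ≤ 1 / 2 * (sing m * P n / Real.log m ^ 2) :=
    h4.trans (mul_le_mul_of_nonneg_right (min_le_right _ _) hmain.le)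
  refine ⟨?_, h5⟩
  have h7 : (0 : ℝ) < R n m := by
    rw [abs_le] at h6
    linarith [h6.1]
  have h8 : 0 < R n m := by exact_mod_cast h7
  unfold R at h8
  rw [card_pos] at h8
  obtain ⟨p, hp⟩ := h8
  rw [mem_filter, mem_Icc] at hp
  obtain ⟨⟨p1, p2⟩, p3, p4, p5, p6⟩ := hp
  exact ⟨p, m - p, p3, p4, by have := p4.pos; omega, p1, p2, p5, p6⟩

open Classical in
/-- Let `r ≥ 1`, `b`, `U`, `δ > 0` and `ε > 0` be fixed.

(1) Let `m` be large, let `v i ∈ ℤ / m`, `i ∈ s`, be an ARBITRARY finite family with exponential sums at most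
`#s m ^ (-δ)`, and let `c` be an integer with `|c| ≤ b m`. Then, for all `i ∈ s` with the exception of a proportion of at most
`1 / log ^ U m`: if the number `n = r (c + (least residue of v i))` is positive and even, then the assertion of the problem
holds for `n`, and the number of the representations required there is as predicted, up to a relative error of at most `ε`.

(2) Let `p` be a prime, `d` arbitrary, let `A` and `A'` be arbitrary sets of vectors modulo `p` with
`#A #A' ≥ p ^ (d + 2 δ)`, let `Q` be an invertible matrix and let `f` and `g` be arbitrary functions. Then the family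
`x · Q y + f(x) + g(y)`, `x ∈ A`, `y ∈ A'`, has exponential sums at most `#A #A' p ^ (-δ)`. -/
theorem result (r b U : ℕ) (hr : 1 ≤ r) (δ : ℝ) (hδ : 0 < δ) (ε : ℝ) (hε : 0 < ε) :
    (∃ m₀ : ℕ, ∀ (m : ℕ) [NeZero m], m₀ ≤ m → ∀ (ι : Type) (s : Finset ι) (v : ι → ZMod m), Small m δ s v →
      ∀ c : ℤ, |c| ≤ b * m →
      ((s.filter fun i => ∃ n : ℕ, (n : ℤ) = r * (c + (v i).val) ∧ 0 < n ∧ Even n ∧ ¬ Holds ε n).card : ℝ) ≤
        s.card / Real.log m ^ U) ∧
    (∀ (p : ℕ) [NeZero p], p.Prime → ∀ (d : ℕ) (A A' : Finset (Fin d → ZMod p)) (Q : Matrix (Fin d) (Fin d) (ZMod p)),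
      IsUnit Q.det → (p : ℝ) ^ (d + 2 * δ) ≤ A.card * A'.card → ∀ f g : (Fin d → ZMod p) → ZMod p,
      Small p δ (A ×ˢ A') (fun z => z.1 ⬝ᵥ Q.mulVec z.2 + f z.1 + g z.2)) := by
  refine ⟨?_, fun p _ hp d A A' Q hQ h f g => small_bil p hp δ d A A' Q hQ h f g⟩
  obtain ⟨m₁, h1⟩ := holds_of ε hε
  obtain ⟨m₀, h⟩ := Pool.Agent.V11113.MR.win r b U 2 m₁ hr δ (min ε (1 / 2) / 4) hδ
    (div_pos (lt_min hε (by norm_num)) (by norm_num)) (Holds ε) h1
  refine ⟨m₀, fun m _ hm ι s v hv c hc => ?_⟩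
  exact h m hm ι s v hv c hc (fun i => ∃ n : ℕ, (n : ℤ) = r * (c + (v i).val) ∧ 0 < n ∧ Even n ∧ ¬ Holds ε n) (by
      rintro i _ ⟨n, e, hn1, hn2, hn3⟩
      rw [← e, Int.toNat_natCast]
      exact ⟨by exact_mod_cast hn1, by exact_mod_cast hn2, hn3⟩)

end Pool.Agent.Results.MP_484fb8_nt.ThinFamilies
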